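import Pool.Agent.W601.RP.Stm2

set_option autoImplicit false
open Filter Topology

namespace Pool.Agent.W381.RP

open Pool.Agent.W601.RP

lemma min_pos {ι : Type} (I : Finset ι) (δ : ι → ℝ) (h : ∀ i, 0 < δ i) :
    ∃ d : ℝ, 0 < d ∧ ∀ i ∈ I, d ≤ δ i := by
  classical
  induction I using Finset.induction_on with
  | empty => exact ⟨1, one_pos, fun i hi => absurd hi (Finset.notMem_empty i)⟩
  | insert a s ha ih =>
    obtain ⟨d, hd, hd2⟩ := ih
    refine ⟨min d (δ a), lt_min hd (h a), fun i hi => ?_⟩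
    rcases Finset.mem_insert.1 hi with rfl | hi
    · exact min_le_right _ _
    · exact (min_le_left _ _).trans (hd2 i hi)

lemma phi_add (hRED : S_RED) (k k' : ℕ →₀ ℤ) : phi (k + k') = phi k + phi k' :=
  funext fun h => hRED.2.1 k k' (h : ℕ → TT)

theorem ch : S_DUAL → S_GS → S_RED → S_CH := by
  intro hDUAL hGS hRED
  have hadd := phi_add hRED
  refine ⟨fun χ => ?_, fun h => ?_⟩
  · let e : TT ≃ₜ Circle := AddCircle.homeomorphCircle one_ne_zero
    have he : ∀ y, e y = AddCircle.toCircle y := AddCircle.homeomorphCircle_apply one_ne_zero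
    let f : ↥GS → TT := fun g => e.symm (χ (Multiplicative.ofAdd g))
    have hf : Continuous f :=
      e.symm.continuous.comp ((map_continuous χ).comp continuous_ofAdd)
    have hfe : ∀ g, AddCircle.toCircle (f g) = χ (Multiplicative.ofAdd g) := fun g => by
      rw [← he]
      exact e.apply_symm_apply _
    have hfadd : ∀ g g', f (g + g') = f g + f g' := by
      intro g g'
      apply e.injective
      rw [he, he, AddCircle.toCircle_add, hfe, hfe, hfe, ofAdd_add, map_mul]
    let χ0 : (ℕ →₀ ℤ) →+ TT := AddMonoidHom.mk' (fun k => f ⟨phi k, hGS.2.1 k⟩) (by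
      intro k k'
      rw [← hfadd]
      congr 1
      exact Subtype.ext (hadd k k'))
    have hf0 : f 0 = 0 := by
      have h1 := hfadd 0 0
      rw [add_zero] at h1
      exact left_eq_add.1 h1
    have hnhd : {g : ↥GS | ‖f g‖ < 1 / 6} ∈ 𝓝 (0 : ↥GS) := by
      have h1 : IsOpen {g : ↥GS | ‖f g‖ < 1 / 6} := isOpen_lt hf.norm continuous_const
      refine h1.mem_nhds ?_
      show ‖f 0‖ < 1 / 6
      rw [hf0, norm_zero]
      norm_num
    rw [nhds_subtype, Filter.mem_comap] at hnhd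
    obtain ⟨s, hs, hsub⟩ := hnhd
    rw [nhds_pi, Filter.mem_pi'] at hs
    obtain ⟨I, t, ht, hIt⟩ := hs
    have hδ : ∀ i : ↥H, ∃ δ : ℝ, 0 < δ ∧ ∀ y : TT, ‖y‖ < δ → y ∈ t i := by
      intro i
      obtain ⟨δ, hδ, hb⟩ := Metric.mem_nhds_iff.1 (ht i)
      refine ⟨δ, hδ, fun y hy => hb ?_⟩
      rw [Metric.mem_ball, dist_eq_norm]
      have h0 : ((0 : ↥GS) : ↥H → TT) i = 0 := rfl
      rw [h0, sub_zero]
      exact hy
    choose δ hδ0 hδ1 using hδ
    obtain ⟨d, hd0, hd⟩ := min_pos I δ hδ0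
    classical
    obtain ⟨h, hH, hh⟩ := hDUAL χ0 (I.image fun h : ↥H => (h : ℕ → TT)) d hd0 (by
        intro h hh
        rw [Finset.mem_image] at hh
        obtain ⟨i, _, rfl⟩ := hh
        exact i.2) (by
        intro k hk
        have h1 : (⟨phi k, hGS.2.1 k⟩ : ↥GS) ∈ {g : ↥GS | ‖f g‖ < 1 / 6} := by
          apply hsub
          apply hIt
          intro i hi
          apply hδ1
          refine lt_of_lt_of_le (hk (i : ℕ → TT) ?_) (hd i hi)
          exact Finset.mem_image_of_mem _ hi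
        exact h1)
    refine ⟨⟨h, hH⟩, fun g => ?_⟩
    obtain ⟨k, _, hk⟩ := hGS.1 g
    have h1 : g = ⟨phi k, hGS.2.1 k⟩ := Subtype.ext hk
    rw [← hfe, hk]
    congr 1
    rw [h1]
    exact hh k
  · refine ⟨(⟨⟨⟨fun g => AddCircle.toCircle (((Multiplicative.toAdd g : ↥GS) : ↥H → TT) h),
      ?_⟩, ?_⟩, ?_⟩ : Multiplicative ↥GS →ₜ* Circle), fun g => rfl⟩
    · show AddCircle.toCircle (((0 : ↥GS) : ↥H → TT) h) = 1
      exact AddCircle.toCircle_zero
    · intro g g'
      exact AddCircle.toCircle_add _ _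
    · have h1 : Continuous (fun g : ↥GS => ((g : ↥GS) : ↥H → TT) h) :=
        (continuous_apply h).comp continuous_subtype_val
      exact AddCircle.continuous_toCircle.comp (h1.comp continuous_toAdd)

end Pool.Agent.W381.RP
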