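import Pool.Agent.W712.RP.Stm

set_option autoImplicit false

open MeasureTheory Set Filter Topology

namespace Pool.Agent.W381.RP

open Pool.Agent.W712.RP

theorem s_mf : Pool.Agent.W712.RP.S_MF := by
  intro E _ _ _ _ _ n I
  haveI : ProperSpace E := FiniteDimensional.proper_real E
  haveI : ProperSpace (E →L[ℝ] ℝ) := FiniteDimensional.proper_real (E →L[ℝ] ℝ)
  let K : ℕ → Set ((E →L[ℝ] ℝ) × ℝ) := fun N =>
    Metric.closedBall (0 : E →L[ℝ] ℝ) N ×ˢ Metric.closedBall (0 : ℝ) N
  have hK : ∀ N, IsCompact (K N) := fun N =>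
    (isCompact_closedBall _ _).prod (isCompact_closedBall _ _)
  let Z : ∀ N : ℕ, Set ((Fin n → E) × K N) := fun N =>
    {p | (∀ i ∈ I, p.2.1.1 (p.1 i) = p.2.1.2) ∧
      ∀ k, k ∉ I → p.2.1.1 (p.1 k) ≤ p.2.1.2 - 1 / ((N : ℝ) + 1)}
  have hZ : ∀ N, IsClosed (Z N) := by
    intro N
    have hc : ∀ i, Continuous (fun p : (Fin n → E) × K N => p.2.1.1 (p.1 i)) := by
      intro i
      exact (continuous_fst.comp (continuous_subtype_val.comp continuous_snd)).clm_apply
        ((continuous_apply i).comp continuous_fst)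
    have hc2 : Continuous (fun p : (Fin n → E) × K N => p.2.1.2) :=
      continuous_snd.comp (continuous_subtype_val.comp continuous_snd)
    have h1 : Z N = (⋂ i ∈ I, {p | p.2.1.1 (p.1 i) = p.2.1.2}) ∩
        ⋂ k, ⋂ (_ : k ∉ I), {p | p.2.1.1 (p.1 k) ≤ p.2.1.2 - 1 / ((N : ℝ) + 1)} := by
      ext p
      simp [Z]
    rw [h1]
    apply IsClosed.inter
    · exact isClosed_biInter fun i _ => isClosed_eq (hc i) hc2
    · exact isClosed_iInter fun k => isClosed_iInter fun _ =>
        isClosed_le (hc k) (hc2.sub continuous_const)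
  have hA : ∀ N, IsClosed (Prod.fst '' Z N) := by
    intro N
    haveI : CompactSpace (K N) := isCompact_iff_compactSpace.1 (hK N)
    exact isClosedMap_fst_of_compactSpace _ (hZ N)
  have hU : {x : Fin n → E | FaceSet x I} = ⋃ N, Prod.fst '' Z N := by
    ext x
    simp only [mem_ofPred_eq, mem_iUnion, mem_image]
    constructor
    · rintro ⟨l, c, h1, h2⟩
      have e1 : ∀ᶠ N : ℕ in atTop, ‖l‖ ≤ (N : ℝ) :=
        tendsto_natCast_atTop_atTop.eventually_ge_atTop _
      have e2 : ∀ᶠ N : ℕ in atTop, ‖c‖ ≤ (N : ℝ) :=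
        tendsto_natCast_atTop_atTop.eventually_ge_atTop _
      have e3 : ∀ᶠ N : ℕ in atTop, ∀ k, k ∉ I → 1 / ((N : ℝ) + 1) ≤ c - l (x k) := by
        rw [eventually_all]
        intro k
        by_cases hk : k ∈ I
        · exact Eventually.of_forall fun N h => absurd hk h
        · have h3 : 0 < c - l (x k) := by linarith [h2 k hk]
          have := (tendsto_one_div_add_atTop_nhds_zero_nat (𝕜 := ℝ)).eventually
            (ge_mem_nhds h3)
          filter_upwards [this] with N hN _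
          exact hN
      obtain ⟨N, ⟨h3, h4⟩, h5⟩ := ((e1.and e2).and e3).exists
      refine ⟨N, (x, ⟨(l, c), ?_⟩), ⟨h1, ?_⟩, rfl⟩
      · exact ⟨by simpa using h3, by simpa using h4⟩
      · intro k hk
        have := h5 k hk
        show l (x k) ≤ c - 1 / ((N : ℝ) + 1)
        linarith
    · rintro ⟨N, ⟨y, lc⟩, ⟨h1, h2⟩, rfl⟩
      refine ⟨lc.1.1, lc.1.2, h1, ?_⟩
      intro k hk
      have h3 := h2 k hk
      have h4 : (0 : ℝ) < 1 / ((N : ℝ) + 1) := by positivity
      show lc.1.1 (y k) < lc.1.2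
      have h5 : lc.1.1 (y k) ≤ lc.1.2 - 1 / ((N : ℝ) + 1) := h3
      linarith
  rw [hU]
  exact MeasurableSet.iUnion fun N => (hA N).measurableSet

end Pool.Agent.W381.RP
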